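import Mathlib

/-!
Two-sorted bounded arithmetic (Zambella / Cook-Nguyen language `0, 1, +, ·, | |, =, ≤, ∈`), the
theories `V⁰` and `VTC⁰`, the ordered ring of binary integers of a model, and exponential integer
parts of real-closed exponential fields.
-/

namespace Pool.Agent.H311Z.VTC

universe u

/-- A structure for the two-sorted language: a number sort, a string sort, `0, 1, +, ·, ≤` on
numbers, the length `|X|` of a string and membership `X(i)`; both equalities are true equality. -/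
structure Struc where
  Num : Type
  Str : Type
  zero : Num
  one : Num
  add : Num → Num → Num
  mul : Num → Num → Num
  le : Num → Num → Prop
  len : Str → Num
  mem : Num → Str → Prop

/-- number terms in `n` number variables and `m` string variables -/
inductive Tm (n m : ℕ) : Type
  | var (i : Fin n) : Tm n m
  | zero : Tm n m
  | one : Tm n m
  | add (s t : Tm n m) : Tm n m
  | mul (s t : Tm n m) : Tm n m
  | len (j : Fin m) : Tm n m

/-- `Σ^B_0` formulas (only bounded number quantifiers) in `n` number variables and `m` string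
variables; `ball t φ` is `∀ x ≤ t, φ`, where `x` is the number variable `0` of `φ` -/
inductive Fm (m : ℕ) : ℕ → Type
  | eq {n : ℕ} (s t : Tm n m) : Fm m n
  | le {n : ℕ} (s t : Tm n m) : Fm m n
  | mem {n : ℕ} (t : Tm n m) (j : Fin m) : Fm m n
  | seq {n : ℕ} (i j : Fin m) : Fm m n
  | not {n : ℕ} (φ : Fm m n) : Fm m n
  | and {n : ℕ} (φ ψ : Fm m n) : Fm m n
  | ball {n : ℕ} (t : Tm n m) (φ : Fm m (n + 1)) : Fm m n

/-- value of a term -/
def Tm.eval (M : Struc) {n m : ℕ} (v : Fin n → M.Num) (V : Fin m → M.Str) : Tm n m → M.Num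
  | .var i => v i
  | .zero => M.zero
  | .one => M.one
  | .add s t => M.add (s.eval M v V) (t.eval M v V)
  | .mul s t => M.mul (s.eval M v V) (t.eval M v V)
  | .len j => M.len (V j)

/-- truth of a `Σ^B_0` formula -/
def Fm.Holds (M : Struc) {m : ℕ} (V : Fin m → M.Str) :
    {n : ℕ} → Fm m n → (Fin n → M.Num) → Prop
  | _, .eq s t, v => s.eval M v V = t.eval M v V
  | _, .le s t, v => M.le (s.eval M v V) (t.eval M v V)
  | _, .mem t j, v => M.mem (t.eval M v V) (V j)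
  | _, .seq i j, _ => V i = V j
  | _, .not φ, v => ¬ φ.Holds M V v
  | _, .and φ ψ, v => φ.Holds M V v ∧ ψ.Holds M V v
  | _, .ball t φ, v => ∀ a : M.Num, M.le a (t.eval M v V) → φ.Holds M V (Fin.cons a v)

namespace Struc

variable (M : Struc)

/-- `x < y` abbreviates `x ≤ y ∧ x ≠ y` -/
def lt (x y : M.Num) : Prop := M.le x y ∧ x ≠ y

/-- `x + 1` -/
def succ (x : M.Num) : M.Num := M.add x M.one

/-- the pairing term `⟨x, y⟩ = (x + y) (x + y + 1) + 2 y` -/
def pair (x y : M.Num) : M.Num :=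
  M.add (M.mul (M.add x y) (M.succ (M.add x y))) (M.add y y)

/-- `2-BASIC`: B1 to B12, L1, L2 and SE of Cook and Nguyen -/
structure Basic : Prop where
  B1 : ∀ x, M.succ x ≠ M.zero
  B2 : ∀ x y, M.succ x = M.succ y → x = y
  B3 : ∀ x, M.add x M.zero = x
  B4 : ∀ x y, M.add x (M.succ y) = M.succ (M.add x y)
  B5 : ∀ x, M.mul x M.zero = M.zero
  B6 : ∀ x y, M.mul x (M.succ y) = M.add (M.mul x y) x
  B7 : ∀ x y, M.le x y → M.le y x → x = y
  B8 : ∀ x y, M.le x (M.add x y)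
  B9 : ∀ x, M.le M.zero x
  B10 : ∀ x y, M.le x y ∨ M.le y x
  B11 : ∀ x y, M.le x y ↔ M.lt x (M.succ y)
  B12 : ∀ x, x ≠ M.zero → ∃ y, M.le y x ∧ M.succ y = x
  L1 : ∀ X y, M.mem y X → M.lt y (M.len X)
  L2 : ∀ X y, M.succ y = M.len X → M.mem y X
  SE : ∀ X Y, M.len X = M.len Y → (∀ i, M.lt i (M.len X) → (M.mem i X ↔ M.mem i Y)) → X = Y

/-- the scheme `Σ^B_0-COMP`: `∃ X ≤ y, ∀ z < y, (X(z) ↔ φ(z))` for all `Σ^B_0` formulas `φ` with
parameters -/
def Comp : Prop :=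
  ∀ (m n : ℕ) (φ : Fm m (n + 1)) (v : Fin n → M.Num) (V : Fin m → M.Str) (y : M.Num),
    ∃ X : M.Str, M.le (M.len X) y ∧ ∀ z, M.lt z y → (M.mem z X ↔ φ.Holds M V (Fin.cons z v))

/-- `(Y)^z = y`, Cook and Nguyen's `seq(z, Y) = y`: `y` is the least number below `|Y|` with
`Y(⟨z, y⟩)`, or `|Y|` if there is none -/
def Seq (z : M.Num) (Y : M.Str) (y : M.Num) : Prop :=
  (M.lt y (M.len Y) ∧ M.mem (M.pair z y) Y ∧ ∀ w, M.lt w y → ¬ M.mem (M.pair z w) Y) ∨
    (y = M.len Y ∧ ∀ w, M.lt w (M.len Y) → ¬ M.mem (M.pair z w) Y)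

/-- `NUMONES`: there is `Y ≤ 1 + ⟨x, x⟩` with `(Y)^0 = 0` and, for `z < x`, `(Y)^(z+1)` equal to
`(Y)^z + 1` or `(Y)^z` according to whether `X(z)` holds -/
def Numones : Prop :=
  ∀ (x : M.Num) (X : M.Str), ∃ Y : M.Str, M.le (M.len Y) (M.add M.one (M.pair x x)) ∧
    M.Seq M.zero Y M.zero ∧ ∀ z, M.lt z x → ∀ y, M.Seq z Y y →
      (M.mem z X → M.Seq (M.succ z) Y (M.succ y)) ∧ (¬ M.mem z X → M.Seq (M.succ z) Y y)

/-- carry into bit `i` when the binary numbers with bit sets `A` and `B` are added -/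
def Carry (A B : M.Num → Prop) (i : M.Num) : Prop :=
  ∃ k, M.lt k i ∧ A k ∧ B k ∧ ∀ j, M.lt j i → M.lt k j → A j ∨ B j

/-- `C = A + B` for binary numbers given by their bit sets -/
def AddBits (A B C : M.Num → Prop) : Prop :=
  ∀ i, C i ↔ Xor (Xor (A i) (B i)) (M.Carry A B i)

/-- `X + Y = Z` for binary natural numbers -/
def NAdd (X Y Z : M.Str) : Prop :=
  M.AddBits (fun i => M.mem i X) (fun i => M.mem i Y) (fun i => M.mem i Z)

/-- `X < Y` for binary natural numbers -/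
def NLt (X Y : M.Str) : Prop :=
  ∃ i, ¬ M.mem i X ∧ M.mem i Y ∧ ∀ j, M.lt i j → (M.mem j X ↔ M.mem j Y)

/-- `X · Y = Z` for binary natural numbers: a table `W` of partial sums has row `0` empty, row
`i + 1` equal to row `i` plus `X(i) 2^i Y` for `i < |X|`, and row `|X|` equal to `Z` -/
def NMul (X Y Z : M.Str) : Prop :=
  ∃ W : M.Str, (∀ j, ¬ M.mem (M.pair M.zero j) W) ∧
    (∀ i, M.lt i (M.len X) → M.AddBits (fun j => M.mem (M.pair i j) W)
      (fun j => M.mem i X ∧ ∃ k, M.le k j ∧ M.add k i = j ∧ M.mem k Y)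
      (fun j => M.mem (M.pair (M.succ i) j) W)) ∧
    ∀ j, M.mem j Z ↔ M.mem (M.pair (M.len X) j) W

/-- model of `VTC⁰`: `V⁰` (that is `2-BASIC` and `Σ^B_0-COMP`), totality of binary
multiplication, and also the counting principle `NUMONES` (equivalent to it over `V⁰`) -/
structure IsVTC0 : Prop where
  basic : M.Basic
  comp : M.Comp
  mult : ∀ X Y, ∃ Z, M.NMul X Y Z
  numones : M.Numones

/-- binary integers: a sign (`true` is negative) and a string of bits; zero has sign `false` -/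
def ZInt : Type := {p : Bool × M.Str // p.1 = true → ∃ i, M.mem i p.2}

/-- order of binary integers -/
def ZLt (a b : M.ZInt) : Prop :=
  (a.1.1 = true ∧ b.1.1 = false) ∨ (a.1.1 = false ∧ b.1.1 = false ∧ M.NLt a.1.2 b.1.2) ∨
    (a.1.1 = true ∧ b.1.1 = true ∧ M.NLt b.1.2 a.1.2)

/-- `a + b = c` for binary integers -/
def ZAdd (a b c : M.ZInt) : Prop :=
  (a.1.1 = b.1.1 ∧ c.1.1 = a.1.1 ∧ M.NAdd a.1.2 b.1.2 c.1.2) ∨
    (a.1.1 ≠ b.1.1 ∧ M.NAdd b.1.2 c.1.2 a.1.2 ∧ (c.1.1 = a.1.1 ∨ a.1.2 = b.1.2)) ∨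
    (a.1.1 ≠ b.1.1 ∧ M.NAdd a.1.2 c.1.2 b.1.2 ∧ (c.1.1 = b.1.1 ∨ a.1.2 = b.1.2))

/-- `a · b = c` for binary integers -/
def ZMul (a b c : M.ZInt) : Prop :=
  M.NMul a.1.2 b.1.2 c.1.2 ∧ ((∃ i, M.mem i c.1.2) → c.1.1 = xor a.1.1 b.1.1)

end Struc

/-- `e` is a base-2 exponential: an isomorphism of ordered groups `(R, +, <) → (R_{>0}, ·, <)`
with `e 1 = 2` -/
structure IsExp {R : Type u} [Field R] [LinearOrder R] (e : R → R) : Prop where
  pos : ∀ x, 0 < e x
  surj : ∀ y, 0 < y → ∃ x, e x = y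
  map_add : ∀ x y, e (x + y) = e x * e y
  mono : StrictMono e
  one : e 1 = 2

/-- `Z` is an integer part: a discretely ordered subring such that every `r` has `z ∈ Z` with
`z ≤ r < z + 1` -/
structure IsIP {R : Type u} [Field R] [LinearOrder R] (Z : Subring R) : Prop where
  discrete : ∀ z ∈ Z, 0 < z → 1 ≤ z
  floor : ∀ r : R, ∃ z ∈ Z, z ≤ r ∧ r < z + 1

/-- the ring of binary integers of `M` is isomorphic, as an ordered ring, to an exponential integer
part of some real-closed exponential field -/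
def IsExpIP (M : Struc) : Prop :=
  ∃ (R : Type u) (_ : Field R) (_ : LinearOrder R) (_ : IsStrictOrderedRing R) (_ : IsRealClosed R)
    (e : R → R) (Z : Subring R) (φ : M.ZInt ≃ Z),
    IsExp e ∧ IsIP Z ∧ (∀ a ∈ Z, 0 < a → e a ∈ Z) ∧
    (∀ a b, M.ZLt a b ↔ φ a < φ b) ∧
    (∀ a b c, M.ZAdd a b c ↔ φ a + φ b = φ c) ∧
    (∀ a b c, M.ZMul a b c ↔ φ a * φ b = φ c)

end Pool.Agent.H311Z.VTC
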