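import Mathlib

/-!
An uncountable subset of the ultrapower of `ℕ`, closed under a given countable family of
functions, all of whose elements have polynomially bounded length, and with only countably many
polynomially bounded elements (the method of Paris and Mills).
-/

namespace Pool.Agent.H311Z.VTC

open Filter

/-- the ultrapower -/
abbrev G : Type := Germ (hyperfilter ℕ : Filter ℕ) ℕ

noncomputable abbrev U : Filter ℕ := (hyperfilter ℕ : Filter ℕ)

noncomputable def rep (x : G) : ℕ → ℕ := Quot.out x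

lemma coe_rep (x : G) : ((rep x : ℕ → ℕ) : G) = x := Quot.out_eq x

lemma rep_coe (f : ℕ → ℕ) : rep (f : G) =ᶠ[U] f := Germ.coe_eq.1 (coe_rep _)

def Small (x : G) : Prop := ∃ c : ℕ, ∀ᶠ n in U, rep x n ≤ (n + 2) ^ c

def Big (x : G) : Prop := ∃ c : ℕ, ∀ᶠ n in U, rep x n < 2 ^ ((n + 2) ^ c)

lemma small_coe {f : ℕ → ℕ} : Small (f : G) ↔ ∃ c : ℕ, ∀ᶠ n in U, f n ≤ (n + 2) ^ c :=
  exists_congr fun _ => eventually_congr ((rep_coe f).mono fun n hn => by rw [hn])

lemma big_coe {f : ℕ → ℕ} : Big (f : G) ↔ ∃ c : ℕ, ∀ᶠ n in U, f n < 2 ^ ((n + 2) ^ c) :=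
  exists_congr fun _ => eventually_congr ((rep_coe f).mono fun n hn => by rw [hn])

lemma Small.big {x : G} (h : Small x) : Big x := by
  obtain ⟨c, hc⟩ := h
  exact ⟨c, hc.mono fun n hn => lt_of_le_of_lt hn Nat.lt_two_pow_self⟩

noncomputable def gpair (x y : G) : G := Germ.map₂ Nat.pair x y

lemma gpair_coe (f g : ℕ → ℕ) : gpair (f : G) (g : G) = ((fun n => Nat.pair (f n) (g n)) : ℕ → ℕ) :=
  rfl

lemma Big.gpair {x y : G} (hx : Big x) (hy : Big y) : Big (gpair x y) := by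
  induction x using Germ.inductionOn with | h f => ?_
  induction y using Germ.inductionOn with | h g => ?_
  rw [gpair_coe]
  obtain ⟨c, hc⟩ := big_coe.1 hx
  obtain ⟨d, hd⟩ := big_coe.1 hy
  refine big_coe.2 ⟨max c d + 1, ?_⟩
  filter_upwards [hc, hd] with n h1 h2
  have e1 : 2 ^ ((n + 2) ^ c) ≤ 2 ^ ((n + 2) ^ (max c d)) :=
    Nat.pow_le_pow_right (by norm_num) (Nat.pow_le_pow_right (by omega) (le_max_left _ _))
  have e2 : 2 ^ ((n + 2) ^ d) ≤ 2 ^ ((n + 2) ^ (max c d)) :=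
    Nat.pow_le_pow_right (by norm_num) (Nat.pow_le_pow_right (by omega) (le_max_right _ _))
  have e3 : max (f n) (g n) + 1 ≤ 2 ^ ((n + 2) ^ (max c d)) := by omega
  calc Nat.pair (f n) (g n) < (max (f n) (g n) + 1) ^ 2 := Nat.pair_lt_max_add_one_sq _ _
    _ ≤ (2 ^ ((n + 2) ^ (max c d))) ^ 2 := Nat.pow_le_pow_left e3 2
    _ = 2 ^ ((n + 2) ^ (max c d) * 2) := by rw [← pow_mul]
    _ ≤ 2 ^ ((n + 2) ^ (max c d + 1)) := by
        apply Nat.pow_le_pow_right (by norm_num)
        rw [pow_succ]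
        exact Nat.mul_le_mul_left _ (by omega)

/-- the definable set with defining function `g` and parameter `p` below `2 ^ (n + 2)` -/
def dset (g : ℕ → ℕ) (n p : ℕ) : Finset ℕ :=
  (Finset.range (2 ^ (n + 2))).filter fun x => g (Nat.pair p x) ≠ 0

lemma exists_fibre (X : Finset ℕ) (h : ℕ → ℕ) (b : ℕ) :
    ∃ c, c ≤ b ∧ X.card ≤ (X.filter fun x => min (h x) b = c).card * (b + 1) := by
  obtain ⟨c, hc, hmax⟩ := Finset.exists_max_image (Finset.range (b + 1))
    (fun c => (X.filter fun x => min (h x) b = c).card) ⟨0, by simp⟩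
  refine ⟨c, by simpa [Nat.lt_succ_iff] using hc, ?_⟩
  rw [Finset.card_eq_sum_card_fiberwise (f := fun x => min (h x) b) (t := Finset.range (b + 1))
    (fun x _ => by simp)]
  calc ∑ c' ∈ Finset.range (b + 1), (X.filter fun x => min (h x) b = c').card
      ≤ ∑ _c' ∈ Finset.range (b + 1), (X.filter fun x => min (h x) b = c).card :=
        Finset.sum_le_sum fun c' hc' => hmax c' hc'
    _ = _ := by simp [mul_comm]

/-- value with the largest fibre -/
noncomputable def pigv (g f : ℕ → ℕ) (n b p m : ℕ) : ℕ :=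
  (exists_fibre (dset g n p) (fun x => f (Nat.pair m x)) b).choose

noncomputable def pig (g f : ℕ → ℕ) (q : ℕ) : ℕ :=
  pigv g f q.unpair.1 q.unpair.2.unpair.1 q.unpair.2.unpair.2.unpair.1
    q.unpair.2.unpair.2.unpair.2

def restr (g f : ℕ → ℕ) (q : ℕ) : ℕ :=
  if g (Nat.pair q.unpair.1.unpair.2.unpair.2.unpair.1 q.unpair.2) ≠ 0 ∧
      min (f (Nat.pair q.unpair.1.unpair.2.unpair.2.unpair.2 q.unpair.2)) q.unpair.1.unpair.1 =
        q.unpair.1.unpair.2.unpair.1 then 1 else 0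

lemma dset_restr (g f : ℕ → ℕ) (n b c p m : ℕ) :
    dset (restr g f) n (Nat.pair b (Nat.pair c (Nat.pair p m))) =
      (dset g n p).filter fun x => min (f (Nat.pair m x)) b = c := by
  ext x
  simp [dset, restr, Nat.unpair_pair, and_assoc]

def feq (q : ℕ) : ℕ := if q.unpair.2 = q.unpair.1 then 1 else 0

/-- codes of the functions generated from a family indexed by `ι` -/
inductive Code (ι : Type) : Type
  | base (i : ι) : Code ι
  | pw (j : ℕ) : Code ι
  | fst : Code ι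
  | snd : Code ι
  | eqf : Code ι
  | comp (a b : Code ι) : Code ι
  | pair (a b : Code ι) : Code ι
  | pig (a b : Code ι) : Code ι
  | restr (a b : Code ι) : Code ι

def Code.enc {ι : Type} (e : ι → ℕ) : Code ι → ℕ
  | .base i => Nat.pair 0 (e i)
  | .pw j => Nat.pair 1 j
  | .fst => Nat.pair 2 0
  | .snd => Nat.pair 3 0
  | .eqf => Nat.pair 4 0
  | .comp a b => Nat.pair 5 (Nat.pair (a.enc e) (b.enc e))
  | .pair a b => Nat.pair 6 (Nat.pair (a.enc e) (b.enc e))
  | .pig a b => Nat.pair 7 (Nat.pair (a.enc e) (b.enc e))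
  | .restr a b => Nat.pair 8 (Nat.pair (a.enc e) (b.enc e))

lemma Code.enc_inj {ι : Type} {e : ι → ℕ} (he : Function.Injective e) :
    ∀ a b : Code ι, a.enc e = b.enc e → a = b := by
  intro a
  induction a with
  | base i => intro b h; cases b <;> simp [Code.enc] at h; rw [he h]
  | pw j => intro b h; cases b <;> simp [Code.enc] at h; rw [h]
  | fst => intro b h; cases b <;> simp [Code.enc] at h; rfl
  | snd => intro b h; cases b <;> simp [Code.enc] at h; rfl
  | eqf => intro b h; cases b <;> simp [Code.enc] at h; rfl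
  | comp a1 a2 i1 i2 => intro b h; cases b <;> simp [Code.enc] at h; rw [i1 _ h.1, i2 _ h.2]
  | pair a1 a2 i1 i2 => intro b h; cases b <;> simp [Code.enc] at h; rw [i1 _ h.1, i2 _ h.2]
  | pig a1 a2 i1 i2 => intro b h; cases b <;> simp [Code.enc] at h; rw [i1 _ h.1, i2 _ h.2]
  | restr a1 a2 i1 i2 => intro b h; cases b <;> simp [Code.enc] at h; rw [i1 _ h.1, i2 _ h.2]

instance {ι : Type} [Countable ι] : Countable (Code ι) := by
  obtain ⟨e, he⟩ := exists_injective_nat ι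
  exact ⟨⟨Code.enc e, fun a b h => Code.enc_inj he a b h⟩⟩

noncomputable def Code.fn {ι : Type} (B : ι → ℕ → ℕ) : Code ι → ℕ → ℕ
  | .base i => B i
  | .pw j => fun n => (n + 2) ^ j
  | .fst => fun q => q.unpair.1
  | .snd => fun q => q.unpair.2
  | .eqf => feq
  | .comp a b => fun q => a.fn B (b.fn B q)
  | .pair a b => fun q => Nat.pair (a.fn B q) (b.fn B q)
  | .pig a b => VTC.pig (a.fn B) (b.fn B)
  | .restr a b => VTC.restr (a.fn B) (b.fn B)

noncomputable def om : G := ((fun n => n : ℕ → ℕ) : G)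

lemma small_om : Small om := small_coe.2 ⟨1, Eventually.of_forall fun n => by simp⟩

variable {ι : Type} (B : ι → ℕ → ℕ)

structure Closed (M : Set G) : Prop where
  big : ∀ x ∈ M, Big x
  hom : om ∈ M
  pair : ∀ x ∈ M, ∀ y ∈ M, gpair x y ∈ M
  app : ∀ (a : Code ι), ∀ x ∈ M, Big (x.map (a.fn B)) → x.map (a.fn B) ∈ M
  small : ∀ x ∈ M, Small x → ∃ a : Code ι, x = om.map (a.fn B)

lemma closed_init : Closed B {x | Big x ∧ ∃ a : Code ι, x = om.map (a.fn B)} where
  big := fun _ h => h.1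
  hom := ⟨small_om.big, Code.pair .fst .snd, by
      unfold om
      rw [Germ.map_coe]
      congr 1
      funext n
      simp [Code.fn, Nat.pair_unpair]⟩
  pair := by
    rintro x ⟨hx, a, rfl⟩ y ⟨hy, b, rfl⟩
    exact ⟨hx.gpair hy, .pair a b, rfl⟩
  app := by
    rintro a x ⟨hx, b, rfl⟩ h
    exact ⟨h, .comp a b, rfl⟩
  small := fun _ h _ => h.2

variable {B}

lemma Closed.coe_pair {M : Set G} (hM : Closed B M) {f g : ℕ → ℕ} (hf : (f : G) ∈ M)
    (hg : (g : G) ∈ M) : (((fun n => Nat.pair (f n) (g n)) : ℕ → ℕ) : G) ∈ M :=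
  hM.pair _ hf _ hg

lemma Closed.coe_app {M : Set G} (hM : Closed B M) (a : Code ι) {f g : ℕ → ℕ} (hf : (f : G) ∈ M)
    (hg : ∀ n, g n = a.fn B (f n)) (hb : Big (g : G)) : (g : G) ∈ M := by
  have : (g : G) = (f : G).map (a.fn B) := by
    rw [Germ.map_coe]; congr 1; funext n; exact hg n
  rw [this] at hb ⊢
  exact hM.app a _ hf hb

/-- one step of the construction of the type -/
lemma step {M : Set G} (hM : Closed B M) (g : Code ι) (p : ℕ → ℕ) (hp : (p : G) ∈ M)
    (f : Code ι) (m : ℕ → ℕ) (hm : (m : G) ∈ M) (j : ℕ) :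
    ∃ (g' : Code ι) (p' : ℕ → ℕ) (c : ℕ → ℕ), (p' : G) ∈ M ∧ (c : G) ∈ M ∧ ∀ n,
      dset (g'.fn B) n (p' n) = (dset (g.fn B) n (p n)).filter
        (fun x => min (f.fn B (Nat.pair (m n) x)) ((n + 2) ^ j) = c n) ∧
      (dset (g.fn B) n (p n)).card ≤ (dset (g'.fn B) n (p' n)).card * (n + 2) ^ (j + 1) := by
  have hb : (((fun n => (n + 2) ^ j) : ℕ → ℕ) : G) ∈ M :=
    hM.coe_app (.pw j) hM.hom (fun n => rfl)
      (Small.big (small_coe.2 ⟨j, Eventually.of_forall fun n => le_rfl⟩))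
  let c : ℕ → ℕ := fun n => pigv (g.fn B) (f.fn B) n ((n + 2) ^ j) (p n) (m n)
  have hc : ∀ n, c n ≤ (n + 2) ^ j ∧ (dset (g.fn B) n (p n)).card ≤
      ((dset (g.fn B) n (p n)).filter fun x =>
        min (f.fn B (Nat.pair (m n) x)) ((n + 2) ^ j) = c n).card * ((n + 2) ^ j + 1) := fun n =>
    (exists_fibre (dset (g.fn B) n (p n)) (fun x => f.fn B (Nat.pair (m n) x)) ((n + 2) ^ j)).choose_spec
  have hcM : (c : G) ∈ M :=
    hM.coe_app (.pig g f) (hM.coe_pair hM.hom (hM.coe_pair hb (hM.coe_pair hp hm)))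
      (fun n => by simp [c, Code.fn, pig, Nat.unpair_pair])
      (Small.big (small_coe.2 ⟨j, Eventually.of_forall fun n => (hc n).1⟩))
  refine ⟨.restr g f, fun n => Nat.pair ((n + 2) ^ j) (Nat.pair (c n) (Nat.pair (p n) (m n))), c,
    hM.coe_pair hb (hM.coe_pair hcM (hM.coe_pair hp hm)), hcM, fun n => ?_⟩
  have e : dset ((Code.restr g f).fn B) n
      (Nat.pair ((n + 2) ^ j) (Nat.pair (c n) (Nat.pair (p n) (m n)))) = _ :=
    dset_restr (g.fn B) (f.fn B) n _ _ _ _
  refine ⟨e, ?_⟩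
  rw [e]
  refine (hc n).2.trans (Nat.mul_le_mul_left _ ?_)
  have : 1 ≤ (n + 2) ^ j := Nat.one_le_pow _ _ (by omega)
  rw [pow_succ]
  nlinarith

lemma eventually_pow_lt (c : ℕ) : ∀ᶠ n in U, (n + 2) ^ c < 2 ^ (n + 2) := by
  have h := tendsto_pow_const_div_const_pow_of_one_lt c (r := 2) (by norm_num)
  have h1 : ∀ᶠ n : ℕ in atTop, (n : ℝ) ^ c / 2 ^ n < 1 := h.eventually (gt_mem_nhds one_pos)
  have h2 : ∀ᶠ n : ℕ in atTop, ((n + 2 : ℕ) : ℝ) ^ c / 2 ^ (n + 2) < 1 :=
    (tendsto_add_atTop_nat 2).eventually h1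
  refine (h2.mono fun n hn => ?_).filter_mono Nat.hyperfilter_le_atTop
  rw [div_lt_one (by positivity)] at hn
  exact_mod_cast hn

lemma exists_new [Countable ι] {M : Set G} (hM : Closed B M) (hc : M.Countable) :
    ∃ a : G, Big a ∧ a ∉ M ∧ ∀ (f : Code ι), ∀ m ∈ M, Small ((gpair m a).map (f.fn B)) →
      (gpair m a).map (f.fn B) ∈ M := by
  have : Countable M := hc.to_subtype
  have : Nonempty M := ⟨⟨om, hM.hom⟩⟩
  have : Nonempty (Code ι) := ⟨.fst⟩
  obtain ⟨e, he⟩ := exists_surjective_nat (Code ι × M × ℕ)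
  let St : Type := {s : Code ι × (ℕ → ℕ) // (s.2 : G) ∈ M}
  have hstep : ∀ (s : St) (k : ℕ), ∃ (s' : St) (c : ℕ → ℕ), (c : G) ∈ M ∧ ∀ n,
      dset (s'.1.1.fn B) n (s'.1.2 n) = (dset (s.1.1.fn B) n (s.1.2 n)).filter
        (fun x => min ((e k).1.fn B (Nat.pair (rep (e k).2.1.1 n) x)) ((n + 2) ^ (e k).2.2) = c n) ∧
      (dset (s.1.1.fn B) n (s.1.2 n)).card ≤
        (dset (s'.1.1.fn B) n (s'.1.2 n)).card * (n + 2) ^ ((e k).2.2 + 1) := by
    intro s k
    obtain ⟨g', p', c, h1, h2, h3⟩ := step hM s.1.1 s.1.2 s.2 (e k).1 (rep (e k).2.1.1)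
      (by rw [coe_rep]; exact (e k).2.1.2) (e k).2.2
    exact ⟨⟨(g', p'), h1⟩, c, h2, h3⟩
  choose nxt cv hcv hnxt using hstep
  let s0 : St := ⟨(.pw 0, fun n => n), hM.hom⟩
  let s : ℕ → St := fun k => Nat.rec s0 (fun k s => nxt s k) k
  let X : ℕ → ℕ → Finset ℕ := fun k n => dset ((s k).1.1.fn B) n ((s k).1.2 n)
  have hX0 : ∀ n, X 0 n = Finset.range (2 ^ (n + 2)) := fun n => by
    ext x; simp [X, s, s0, dset, Code.fn]
  have hXs : ∀ k n, X (k + 1) n = (X k n).filter (fun x =>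
      min ((e k).1.fn B (Nat.pair (rep (e k).2.1.1 n) x)) ((n + 2) ^ (e k).2.2) = cv (s k) k n) :=
    fun k n => (hnxt (s k) k n).1
  have hXc : ∀ k n, (X k n).card ≤ (X (k + 1) n).card * (n + 2) ^ ((e k).2.2 + 1) :=
    fun k n => (hnxt (s k) k n).2
  have hlarge : ∀ k, ∃ c, ∀ n, 2 ^ (n + 2) ≤ (X k n).card * (n + 2) ^ c := by
    intro k
    induction k with
    | zero => exact ⟨0, fun n => by simp [hX0]⟩
    | succ k ih =>
      obtain ⟨c, hc⟩ := ih
      refine ⟨(e k).2.2 + 1 + c, fun n => (hc n).trans ?_⟩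
      rw [pow_add, ← mul_assoc]
      exact Nat.mul_le_mul_right _ (hXc k n)
  have hne : ∀ k n, (X k n).Nonempty := by
    intro k n
    obtain ⟨c, hc⟩ := hlarge k
    rw [← Finset.card_pos]
    have h1 := hc n
    have h2 : 0 < 2 ^ (n + 2) := by positivity
    by_contra h0
    have : (X k n).card = 0 := by omega
    rw [this] at h1
    omega
  have hanti : ∀ k l n, k ≤ l → X l n ⊆ X k n := by
    intro k l n hkl
    induction hkl with
    | refl => exact Finset.Subset.refl _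
    | step _ ih => rw [hXs]; exact (Finset.filter_subset _ _).trans ih
  choose a ha using fun n => hne n n
  have haX : ∀ k, ∀ᶠ n in U, a n ∈ X k n := fun k =>
    ((eventually_ge_atTop k).mono fun n hn => hanti k n n hn (ha n)).filter_mono
      Nat.hyperfilter_le_atTop
  have hval : ∀ k, ∀ᶠ n in U,
      min ((e k).1.fn B (Nat.pair (rep (e k).2.1.1 n) (a n))) ((n + 2) ^ (e k).2.2) =
        cv (s k) k n := fun k =>
    (haX (k + 1)).mono fun n hn => by rw [hXs] at hn; exact (Finset.mem_filter.1 hn).2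
  refine ⟨(a : G), big_coe.2 ⟨1, (haX 0).mono fun n hn => ?_⟩, fun haM => ?_, fun f m hm hs => ?_⟩
  · rw [hX0] at hn
    simpa using hn
  · obtain ⟨k, hk⟩ := he (.eqf, ⟨a, haM⟩, 1)
    obtain ⟨c, hc⟩ := hlarge (k + 1)
    have h1 := hval k
    have h2 := hXs k
    rw [hk] at h1 h2
    have : ∀ᶠ n in U, False := by
      filter_upwards [h1, rep_coe a, eventually_pow_lt c] with n e1 e2 e3
      have e4 : cv (s k) k n = 1 := by
        rw [← e1]
        simp [Code.fn, feq, e2]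
      have e5 : X (k + 1) n ⊆ {a n} := by
        intro x hx
        rw [h2 n] at hx
        have := (Finset.mem_filter.1 hx).2
        rw [e4] at this
        simp only [Code.fn, feq, Nat.unpair_pair, e2] at this
        by_contra hne
        rw [if_neg (by simpa using hne)] at this
        simp at this
      have e6 : (X (k + 1) n).card ≤ 1 := by simpa using Finset.card_le_card e5
      have e7 := hc n
      have e8 : (X (k + 1) n).card * (n + 2) ^ c ≤ 1 * (n + 2) ^ c := Nat.mul_le_mul_right _ e6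
      omega
    exact this.exists.elim fun _ h => h
  · have hrw : (gpair m (a : G)).map (f.fn B) =
        ((fun n => f.fn B (Nat.pair (rep m n) (a n)) : ℕ → ℕ) : G) := by
      conv_lhs => rw [← coe_rep m]
      rfl
    rw [hrw] at hs ⊢
    obtain ⟨j, hj⟩ := small_coe.1 hs
    obtain ⟨k, hk⟩ := he (f, ⟨m, hm⟩, j)
    have h1 := hval k
    rw [hk] at h1
    have : ((fun n => f.fn B (Nat.pair (rep m n) (a n)) : ℕ → ℕ) : G) = (cv (s k) k : G) := by
      rw [Germ.coe_eq]
      filter_upwards [h1, hj] with n e1 e2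
      rw [← e1]
      exact (min_eq_left e2).symm
    rw [this]
    exact hcv _ _

lemma exists_ext [Countable ι] {M : Set G} (hM : Closed B M) (hc : M.Countable) :
    ∃ M', Closed B M' ∧ M ⊆ M' ∧ ¬ M' ⊆ M := by
  obtain ⟨a, hab, haM, ha⟩ := exists_new hM hc
  induction a using Germ.inductionOn with | h a => ?_
  refine ⟨{y | Big y ∧ ∃ f : Code ι, ∃ m ∈ M, y = (gpair m a).map (f.fn B)}, ?_, ?_, ?_⟩
  · have hsub : ∀ m ∈ M, m = (gpair m a).map ((Code.fst : Code ι).fn B) := by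
      intro m _
      induction m using Germ.inductionOn with | h m => ?_
      rw [gpair_coe, Germ.map_coe]
      congr 1; funext n; simp [Code.fn]
    refine ⟨fun _ h => h.1, ⟨small_om.big, .fst, om, hM.hom, hsub _ hM.hom⟩, ?_, ?_, ?_⟩
    · rintro x ⟨hx, f, m, hm, rfl⟩ y ⟨hy, f', m', hm', rfl⟩
      refine ⟨hx.gpair hy, .pair (.comp f (.pair (.comp .fst .fst) .snd))
        (.comp f' (.pair (.comp .snd .fst) .snd)), gpair m m', hM.pair _ hm _ hm', ?_⟩
      induction m using Germ.inductionOn with | h m => ?_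
      induction m' using Germ.inductionOn with | h m' => ?_
      simp only [gpair_coe, Germ.map_coe]
      congr 1; funext n; simp [Code.fn]
    · rintro g x ⟨hx, f, m, hm, rfl⟩ hb
      refine ⟨hb, .comp g f, m, hm, ?_⟩
      induction m using Germ.inductionOn with | h m => ?_
      rfl
    · rintro x ⟨hx, f, m, hm, rfl⟩ hs
      exact hM.small _ (ha f m hm hs) hs
  · intro m hm
    refine ⟨hM.big m hm, .fst, m, hm, ?_⟩
    induction m using Germ.inductionOn with | h m => ?_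
    rw [gpair_coe, Germ.map_coe]
    congr 1; funext n; simp [Code.fn]
  · intro h
    refine haM (h ⟨hab, .snd, om, hM.hom, ?_⟩)
    unfold om
    rw [gpair_coe, Germ.map_coe]
    congr 1; funext n; simp [Code.fn]

theorem exists_closed [Countable ι] (B : ι → ℕ → ℕ) :
    ∃ M : Set G, Closed B M ∧ ¬ M.Countable ∧ {x ∈ M | Small x}.Countable := by
  obtain ⟨M, -, hM⟩ := zorn_subset_nonempty {M : Set G | Closed B M} (by
    intro c hc hch ⟨M0, hM0⟩
    refine ⟨⋃₀ c, ⟨?_, ⟨M0, hM0, (hc hM0).hom⟩, ?_, ?_, ?_⟩, fun s hs => Set.subset_sUnion_of_mem hs⟩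
    · rintro x ⟨N, hN, hx⟩; exact (hc hN).big x hx
    · rintro x ⟨N, hN, hx⟩ y ⟨N', hN', hy⟩
      rcases hch.total hN hN' with h | h
      · exact ⟨N', hN', (hc hN').pair x (h hx) y hy⟩
      · exact ⟨N, hN, (hc hN).pair x hx y (h hy)⟩
    · rintro a x ⟨N, hN, hx⟩ hb; exact ⟨N, hN, (hc hN).app a x hx hb⟩
    · rintro x ⟨N, hN, hx⟩ hs; exact (hc hN).small x hx hs) _ (closed_init B)
  refine ⟨M, hM.prop, fun hc => ?_, ?_⟩
  · obtain ⟨M', h1, h2, h3⟩ := exists_ext hM.prop hc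
    exact h3 (hM.le_of_ge h1 h2)
  · refine (Set.countable_range fun a : Code ι => om.map (a.fn B)).mono ?_
    rintro x ⟨hx, hs⟩
    obtain ⟨a, ha⟩ := hM.prop.small x hx hs
    exact ⟨a, ha.symm⟩

end Pool.Agent.H311Z.VTC
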