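import Pool.Agent.H311Z.VTC.Defs

/-! If the binary integers form an exponential integer part and the number sort is countable, then
the string sort is countable. -/

namespace Pool.Agent.H311Z.VTC

universe u

lemma carry_self {M : Struc} (hB : M.Basic) {X : M.Str} (hX : ∃ i, M.mem i X) :
    M.Carry (fun i => M.mem i X) (fun i => M.mem i X) (M.len X) := by
  obtain ⟨i, hi⟩ := hX
  have h1 := hB.L1 X i hi
  have h2 : M.len X ≠ M.zero := by
    intro h
    rw [h] at h1
    exact h1.2 (hB.B7 _ _ h1.1 (hB.B9 _))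
  obtain ⟨k, -, hk⟩ := hB.B12 _ h2
  have h3 : M.mem k X := hB.L2 X k hk
  refine ⟨k, hB.L1 X k h3, h3, h3, fun j hj hkj => ?_⟩
  rw [← hk, ← hB.B11] at hj
  exact absurd (hB.B7 _ _ hkj.1 hj) hkj.2

lemma mem_double {M : Struc} (hB : M.Basic) {X Z : M.Str} (hX : ∃ i, M.mem i X)
    (h : M.NAdd X X Z) : M.mem (M.len X) Z := by
  have := (h (M.len X)).2
  apply this
  right
  refine ⟨carry_self hB hX, ?_⟩
  simp [Xor]

lemma pos_sign {M : Struc} (hB : M.Basic) {p q : M.ZInt} (h1 : M.ZAdd p p q) (h2 : M.ZLt p q) :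
    p.1.1 = false ∧ q.1.1 = false ∧ M.mem (M.len p.1.2) q.1.2 := by
  rcases h1 with ⟨-, e, h⟩ | ⟨e, -⟩ | ⟨e, -⟩
  · rcases h2 with ⟨a, b⟩ | ⟨a, b, i, -, hi, -⟩ | ⟨a, b, i, -, hi, hj⟩
    · rw [e, a] at b; exact absurd b (by simp)
    · refine ⟨a, b, mem_double hB ?_ h⟩
      have := (h i).1 hi
      rcases this with ⟨h3, -⟩ | ⟨⟨k, -, hk, -⟩, -⟩
      · simp [Xor] at h3
      · exact ⟨k, hk⟩
    · have h3 := mem_double hB ⟨i, hi⟩ h
      have h4 := (hj _ (hB.L1 _ _ hi)).1 h3
      exact absurd rfl (hB.L1 _ _ h4).2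
  · exact absurd rfl e
  · exact absurd rfl e

theorem not_isExpIP {M : Struc} (hB : M.Basic) (hN : Countable M.Num) (hS : ¬ Countable M.Str) :
    ¬ IsExpIP.{u} M := by
  rintro ⟨R, _, _, _, _, e, Z, φ, he, hZ, hE, hlt, hadd, -⟩
  let P : Type u := {a : Z // 0 < (a : R)}
  let ex : P → Z := fun a => ⟨e a.1, hE _ a.1.2 a.2⟩
  have key : ∀ a : P, (φ.symm (ex a)).1.1 = false ∧ (φ.symm (ex a + ex a)).1.1 = false ∧
      M.mem (M.len (φ.symm (ex a)).1.2) (φ.symm (ex a + ex a)).1.2 := fun a => by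
    apply pos_sign hB
    · rw [hadd]; simp
    · rw [hlt]
      simp only [Equiv.apply_symm_apply]
      have : 0 < e a.1 := he.pos _
      change e a.1 < e a.1 + e a.1
      linarith
  let L : P → M.Num := fun a => M.len (φ.symm (ex a)).1.2
  have hL : ∀ a b : P, (a.1 : R) < b.1 → L a ≠ L b := by
    intro a b hab hEq
    have h1 : (1 : R) ≤ b.1 - a.1 := hZ.discrete _ (Z.sub_mem b.1.2 a.1.2) (by linarith)
    have h2 : e a.1 + e a.1 ≤ e b.1 := by
      have : e (a.1 + 1) ≤ e b.1 := he.mono.monotone (by linarith)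
      rw [he.map_add, he.one] at this
      linarith
    obtain ⟨-, k2, k3⟩ := key a
    obtain ⟨k4, -, -⟩ := key b
    rcases h2.lt_or_eq with h | h
    · have h3 : M.ZLt (φ.symm (ex a + ex a)) (φ.symm (ex b)) := by
        rw [hlt]
        simp only [Equiv.apply_symm_apply]
        exact h
      rcases h3 with ⟨c, -⟩ | ⟨-, -, i, hi1, hi2, hj⟩ | ⟨c, -⟩
      · rw [k2] at c; exact absurd c (by simp)
      · have h4 : M.lt i (L a) := by rw [hEq]; exact hB.L1 _ _ hi2
        have h5 := hB.L1 _ _ ((hj _ h4).1 k3)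
        exact h5.2 hEq
      · rw [k2] at c; exact absurd c (by simp)
    · have h3 : ex a + ex a = ex b := Subtype.ext h
      rw [h3] at k3
      exact (hB.L1 _ _ k3).2 hEq
  have hinj : Function.Injective L := by
    intro a b hab
    rcases lt_trichotomy (a.1 : R) b.1 with h | h | h
    · exact absurd hab (hL a b h)
    · exact Subtype.ext (Subtype.ext h)
    · exact absurd hab.symm (hL b a h)
  have hP : Countable P := hinj.countable
  have hZc : Countable Z := by
    let f : P ⊕ P ⊕ Unit → Z := fun s => match s with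
      | .inl a => a.1
      | .inr (.inl a) => -a.1
      | .inr (.inr _) => 0
    have : Function.Surjective f := by
      intro z
      rcases lt_trichotomy (0 : R) z with h | h | h
      · exact ⟨.inl ⟨z, h⟩, rfl⟩
      · exact ⟨.inr (.inr ()), Subtype.ext h⟩
      · exact ⟨.inr (.inl ⟨-z, by simpa using h⟩), by simp [f]⟩
    exact this.countable
  have hI : Countable M.ZInt := φ.injective.countable
  apply hS
  let g : M.Str → M.ZInt := fun X => ⟨(false, X), by simp⟩
  have : Function.Injective g := fun X Y h => by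
    have := congrArg (fun p : M.ZInt => p.1.2) h
    exact this
  exact this.countable

end Pool.Agent.H311Z.VTC
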