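import Pool.Agent.H311Z.VTC.Defs

/-! The standard model and the formulas used for transfer. -/

namespace Pool.Agent.H311Z.VTC

/-- the standard model: strings are natural numbers written in binary -/
def std : Struc where
  Num := ℕ
  Str := ℕ
  zero := (0 : ℕ)
  one := (1 : ℕ)
  add := fun x y : ℕ => x + y
  mul := fun x y : ℕ => x * y
  le := fun x y : ℕ => x ≤ y
  len := fun X : ℕ => Nat.size X
  mem := fun (i X : ℕ) => X.testBit i = true

def np (x y : ℕ) : ℕ := (x + y) * (x + y + 1) + (y + y)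

lemma np_inj {x y x' y' : ℕ} (h : np x y = np x' y') : x = x' ∧ y = y' := by
  unfold np at h
  have : x + y = x' + y' := by
    rcases lt_trichotomy (x + y) (x' + y') with h1 | h1 | h1
    · have h2 : x + y + 1 ≤ x' + y' := h1
      nlinarith
    · exact h1
    · have h2 : x' + y' + 1 ≤ x + y := h1
      nlinarith
  rw [this] at h
  omega

lemma np_mono {x y x' y' : ℕ} (h1 : x ≤ x') (h2 : y ≤ y') : np x y ≤ np x' y' := by
  unfold np
  have : (x + y) * (x + y + 1) ≤ (x' + y') * (x' + y' + 1) := Nat.mul_le_mul (by omega) (by omega)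
  omega

lemma le_np (x y : ℕ) : y ≤ np x y := by unfold np; omega

lemma exists_bits (y : ℕ) (P : ℕ → Prop) :
    ∃ Y : ℕ, Y.size ≤ y ∧ ∀ z, Y.testBit z = true ↔ z < y ∧ P z := by
  classical
  refine ⟨Nat.ofBits (fun i : Fin y => decide (P i)), Nat.size_le.2 (Nat.ofBits_lt_two_pow _),
    fun z => ?_⟩
  rw [Nat.testBit_ofBits]
  split_ifs with h <;> simp [h]

lemma std_lt (x y : ℕ) : std.lt x y ↔ x < y := by
  change x ≤ y ∧ x ≠ y ↔ x < y
  omega

lemma lt_size_of_testBit {X i : ℕ} (h : X.testBit i = true) : i < X.size :=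
  Nat.lt_size.2 (Nat.ge_two_pow_of_testBit h)

lemma carry_iff (a b i : ℕ) :
    (∃ k, k < i ∧ a.testBit k = true ∧ b.testBit k = true ∧
      ∀ j, j < i → k < j → a.testBit j = true ∨ b.testBit j = true) ↔
      2 ^ i ≤ a % 2 ^ i + b % 2 ^ i := by
  induction i with
  | zero => simp [Nat.mod_one]
  | succ i ih =>
    have ha : a % 2 ^ i < 2 ^ i := Nat.mod_lt _ (by positivity)
    have hb : b % 2 ^ i < 2 ^ i := Nat.mod_lt _ (by positivity)
    rw [Nat.mod_pow_succ, Nat.mod_pow_succ, pow_succ]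
    have e1 : a.testBit i = true ↔ a / 2 ^ i % 2 = 1 := by
      rw [Nat.testBit_eq_decide_div_mod_eq]; simp
    have e2 : b.testBit i = true ↔ b / 2 ^ i % 2 = 1 := by
      rw [Nat.testBit_eq_decide_div_mod_eq]; simp
    have key : (∃ k, k < i + 1 ∧ a.testBit k = true ∧ b.testBit k = true ∧
        ∀ j, j < i + 1 → k < j → a.testBit j = true ∨ b.testBit j = true) ↔
        (a.testBit i = true ∧ b.testBit i = true) ∨
          ((a.testBit i = true ∨ b.testBit i = true) ∧ 2 ^ i ≤ a % 2 ^ i + b % 2 ^ i) := by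
      rw [← ih]
      constructor
      · rintro ⟨k, hk, h1, h2, h3⟩
        rcases Nat.lt_succ_iff_lt_or_eq.1 hk with h | rfl
        · exact Or.inr ⟨h3 i (by omega) h, k, h, h1, h2, fun j hj => h3 j (by omega)⟩
        · exact Or.inl ⟨h1, h2⟩
      · rintro (⟨h1, h2⟩ | ⟨h0, k, hk, h1, h2, h3⟩)
        · exact ⟨i, by omega, h1, h2, fun j h h' => by omega⟩
        · refine ⟨k, by omega, h1, h2, fun j h h' => ?_⟩
          rcases Nat.lt_succ_iff_lt_or_eq.1 h with h | rfl
          · exact h3 j h h'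
          · exact h0
    rw [key, e1, e2]
    rcases Nat.mod_two_eq_zero_or_one (a / 2 ^ i) with h1 | h1 <;>
      rcases Nat.mod_two_eq_zero_or_one (b / 2 ^ i) with h2 | h2 <;> rw [h1, h2] <;> omega

lemma addBits_std (a b : ℕ) :
    std.AddBits (fun i => a.testBit i = true) (fun i => b.testBit i = true)
      (fun i => (a + b).testBit i = true) := by
  intro (i : ℕ)
  have hc : std.Carry (fun i => a.testBit i = true) (fun i => b.testBit i = true) i ↔
      2 ^ i ≤ a % 2 ^ i + b % 2 ^ i := by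
    rw [← carry_iff]
    unfold Struc.Carry
    simp only [std_lt]
    rfl
  rw [hc]
  have hd : (a + b) / 2 ^ i = a / 2 ^ i + b / 2 ^ i +
      if 2 ^ i ≤ a % 2 ^ i + b % 2 ^ i then 1 else 0 := Nat.add_div (by positivity)
  simp only [Nat.testBit_eq_decide_div_mod_eq, decide_eq_true_eq, Xor]
  by_cases h : 2 ^ i ≤ a % 2 ^ i + b % 2 ^ i
  · rw [if_pos h] at hd
    rw [hd]
    simp only [h, true_and, not_true, and_false, false_or]
    omega
  · rw [if_neg h] at hd
    rw [hd]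
    simp only [h, false_and, not_false_iff, and_true, or_false]
    omega

lemma exists_mulT (X Y : ℕ) : ∃ W : ℕ, W.size ≤ np X.size (X.size + Y.size) + 1 ∧
    ∀ i j, W.testBit (np i j) = true ↔ i ≤ X.size ∧ ((X % 2 ^ i) * Y).testBit j = true := by
  obtain ⟨W, h1, h2⟩ := exists_bits (np X.size (X.size + Y.size) + 1)
    (fun z => ∃ i j, z = np i j ∧ i ≤ X.size ∧ ((X % 2 ^ i) * Y).testBit j = true)
  refine ⟨W, h1, fun i j => ?_⟩
  rw [h2]
  constructor
  · rintro ⟨-, i', j', e, h3, h4⟩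
    obtain ⟨rfl, rfl⟩ := np_inj e
    exact ⟨h3, h4⟩
  · rintro ⟨h3, h4⟩
    refine ⟨Nat.lt_succ_of_le (np_mono h3 ?_), i, j, rfl, h3, h4⟩
    have e1 := Nat.ge_two_pow_of_testBit h4
    have e2 : X % 2 ^ i * Y < 2 ^ (X.size + Y.size) := by
      rw [pow_add]
      exact Nat.mul_lt_mul'' (lt_of_le_of_lt (Nat.mod_le _ _) (Nat.lt_size_self X))
        (Nat.lt_size_self Y)
    exact ((Nat.pow_lt_pow_iff_right (by norm_num)).1 (lt_of_le_of_lt e1 e2)).le

noncomputable def mulT (X Y : ℕ) : ℕ := (exists_mulT X Y).choose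

lemma mulT_size (X Y : ℕ) : (mulT X Y).size ≤ np X.size (X.size + Y.size) + 1 :=
  (exists_mulT X Y).choose_spec.1

lemma mulT_bit (X Y i j : ℕ) :
    (mulT X Y).testBit (np i j) = true ↔ i ≤ X.size ∧ ((X % 2 ^ i) * Y).testBit j = true :=
  (exists_mulT X Y).choose_spec.2 i j

lemma mulT_step (X Y i : ℕ) (hi : i < X.size) :
    std.AddBits (fun j => (mulT X Y).testBit (np i j) = true)
      (fun j : ℕ => X.testBit i = true ∧ ∃ k : ℕ, k ≤ j ∧ k + i = j ∧ Y.testBit k = true)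
      (fun j => (mulT X Y).testBit (np (i + 1) j) = true) := by
  have h := addBits_std ((X % 2 ^ i) * Y) (if X.testBit i = true then Y * 2 ^ i else 0)
  have e1 : (fun j => (mulT X Y).testBit (np i j) = true) =
      fun j => ((X % 2 ^ i) * Y).testBit j = true := by
    funext j; rw [mulT_bit]; simp [hi.le]
  have e2 : (fun j : ℕ => X.testBit i = true ∧ ∃ k : ℕ, k ≤ j ∧ k + i = j ∧ Y.testBit k = true) =
      fun j => (if X.testBit i = true then Y * 2 ^ i else 0).testBit j = true := by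
    funext j
    split_ifs with hb
    · simp only [hb, true_and, Nat.testBit_mul_two_pow, Bool.and_eq_true, decide_eq_true_eq,
        eq_iff_iff]
      constructor
      · rintro ⟨k, h1, rfl, h3⟩
        exact ⟨by omega, by simpa using h3⟩
      · rintro ⟨h1, h2⟩
        exact ⟨j - i, by omega, by omega, h2⟩
    · simp [hb]
  have e3 : (fun j => (mulT X Y).testBit (np (i + 1) j) = true) =
      fun j => ((X % 2 ^ i) * Y + (if X.testBit i = true then Y * 2 ^ i else 0)).testBit j = true := by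
    funext j
    rw [mulT_bit]
    have : X % 2 ^ (i + 1) * Y =
        (X % 2 ^ i) * Y + (if X.testBit i = true then Y * 2 ^ i else 0) := by
      rw [Nat.mod_pow_succ, Nat.testBit_eq_decide_div_mod_eq]
      rcases Nat.mod_two_eq_zero_or_one (X / 2 ^ i) with h1 | h1 <;> simp [h1]
      ring
    rw [this]
    simp [Nat.succ_le_of_lt hi]
  exact (congr (congr (congrArg std.AddBits e1) e2) e3).mpr h

def cnt (X z : ℕ) : ℕ := ((Finset.range z).filter fun i => X.testBit i = true).card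

lemma cnt_le (X z : ℕ) : cnt X z ≤ z := by
  unfold cnt
  simpa using Finset.card_filter_le (Finset.range z) fun i => X.testBit i = true

lemma cnt_succ (X z : ℕ) : cnt X (z + 1) = cnt X z + if X.testBit z = true then 1 else 0 := by
  unfold cnt
  rw [Finset.range_add_one, Finset.filter_insert]
  split_ifs with h
  · rw [Finset.card_insert_of_notMem (by simp)]
  · rfl

lemma exists_numT (x X : ℕ) : ∃ Y : ℕ, Y.size ≤ 1 + np x x ∧
    ∀ z, z ≤ x → ∀ y : ℕ, std.Seq z Y y ↔ y = cnt X z := by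
  obtain ⟨Y, h1, h2⟩ := exists_bits (1 + np x x) (fun w => ∃ z, z ≤ x ∧ w = np z (cnt X z))
  refine ⟨Y, h1, fun z hz y => ?_⟩
  have hb : ∀ w, Y.testBit (np z w) = true ↔ w = cnt X z := by
    intro w
    rw [h2]
    constructor
    · rintro ⟨-, z', -, e⟩
      obtain ⟨rfl, rfl⟩ := np_inj e
      rfl
    · rintro rfl
      have := np_mono hz ((cnt_le X z).trans hz)
      exact ⟨by omega, z, hz, rfl⟩
  have hs : cnt X z < Y.size :=
    lt_of_le_of_lt (le_np z _) (lt_size_of_testBit ((hb _).2 rfl))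
  unfold Struc.Seq
  simp only [std_lt]
  change (y < Y.size ∧ Y.testBit (np z y) = true ∧ ∀ w : ℕ, w < y → ¬ Y.testBit (np z w) = true) ∨
    (y = Y.size ∧ ∀ w : ℕ, w < Y.size → ¬ Y.testBit (np z w) = true) ↔ _
  simp only [hb]
  constructor
  · rintro (⟨-, h, -⟩ | ⟨-, h⟩)
    · exact h
    · exact absurd rfl (h _ hs)
  · rintro rfl
    exact Or.inl ⟨hs, rfl, fun w hw => hw.ne⟩

noncomputable def numT (x X : ℕ) : ℕ := (exists_numT x X).choose

lemma numT_size (x X : ℕ) : (numT x X).size ≤ 1 + np x x := (exists_numT x X).choose_spec.1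

lemma numT_seq (x X z : ℕ) (hz : z ≤ x) (y : ℕ) : std.Seq z (numT x X) y ↔ y = cnt X z :=
  (exists_numT x X).choose_spec.2 z hz y

/-! countability of the set of formulas -/

def Tm.enc {n m : ℕ} : Tm n m → ℕ
  | .var i => Nat.pair 0 i
  | .zero => Nat.pair 1 0
  | .one => Nat.pair 2 0
  | .add s t => Nat.pair 3 (Nat.pair s.enc t.enc)
  | .mul s t => Nat.pair 4 (Nat.pair s.enc t.enc)
  | .len j => Nat.pair 5 j

lemma Tm.enc_inj {n m : ℕ} : ∀ a b : Tm n m, a.enc = b.enc → a = b := by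
  intro a
  induction a with
  | var i => intro b h; cases b <;> simp [Tm.enc] at h; rw [Fin.ext h]
  | zero => intro b h; cases b <;> simp [Tm.enc] at h; rfl
  | one => intro b h; cases b <;> simp [Tm.enc] at h; rfl
  | add a1 a2 i1 i2 => intro b h; cases b <;> simp [Tm.enc] at h; rw [i1 _ h.1, i2 _ h.2]
  | mul a1 a2 i1 i2 => intro b h; cases b <;> simp [Tm.enc] at h; rw [i1 _ h.1, i2 _ h.2]
  | len j => intro b h; cases b <;> simp [Tm.enc] at h; rw [Fin.ext h]

def Fm.enc {m : ℕ} : {n : ℕ} → Fm m n → ℕ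
  | _, .eq s t => Nat.pair 0 (Nat.pair s.enc t.enc)
  | _, .le s t => Nat.pair 1 (Nat.pair s.enc t.enc)
  | _, .mem t j => Nat.pair 2 (Nat.pair t.enc j)
  | _, .seq i j => Nat.pair 3 (Nat.pair i j)
  | _, .not φ => Nat.pair 4 φ.enc
  | _, .and φ ψ => Nat.pair 5 (Nat.pair φ.enc ψ.enc)
  | _, .ball t φ => Nat.pair 6 (Nat.pair t.enc φ.enc)

lemma Fm.enc_inj {m n : ℕ} (a : Fm m n) : ∀ b : Fm m n, a.enc = b.enc → a = b := by
  induction a with
  | eq s t =>
    intro b h; cases b <;> simp [Fm.enc] at h; rw [Tm.enc_inj _ _ h.1, Tm.enc_inj _ _ h.2]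
  | le s t =>
    intro b h; cases b <;> simp [Fm.enc] at h; rw [Tm.enc_inj _ _ h.1, Tm.enc_inj _ _ h.2]
  | mem s t => intro b h; cases b <;> simp [Fm.enc] at h; rw [Tm.enc_inj _ _ h.1, Fin.ext h.2]
  | seq s t => intro b h; cases b <;> simp [Fm.enc] at h; rw [Fin.ext h.1, Fin.ext h.2]
  | not φ ih => intro b h; cases b <;> simp [Fm.enc] at h; rw [ih _ h]
  | and φ ψ i1 i2 => intro b h; cases b <;> simp [Fm.enc] at h; rw [i1 _ h.1, i2 _ h.2]
  | ball t φ ih => intro b h; cases b <;> simp [Fm.enc] at h; rw [Tm.enc_inj _ _ h.1, ih _ h.2]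

instance {m n : ℕ} : Countable (Fm m n) := ⟨⟨Fm.enc, fun a b h => Fm.enc_inj a b h⟩⟩

/-! derived connectives -/

def Fm.or {m n : ℕ} (φ ψ : Fm m n) : Fm m n := .not (.and (.not φ) (.not ψ))
def Fm.imp {m n : ℕ} (φ ψ : Fm m n) : Fm m n := .not (.and φ (.not ψ))
def Fm.iff {m n : ℕ} (φ ψ : Fm m n) : Fm m n := .and (.imp φ ψ) (.imp ψ φ)
def Fm.xor {m n : ℕ} (φ ψ : Fm m n) : Fm m n := .or (.and φ (.not ψ)) (.and ψ (.not φ))
def Fm.lt {m n : ℕ} (s t : Tm n m) : Fm m n := .and (.le s t) (.not (.eq s t))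
def Fm.bex {m n : ℕ} (t : Tm n m) (φ : Fm m (n + 1)) : Fm m n := .not (.ball t (.not φ))
def Tm.succ {n m : ℕ} (s : Tm n m) : Tm n m := .add s .one
def Tm.pair {n m : ℕ} (x y : Tm n m) : Tm n m :=
  .add (.mul (.add x y) (Tm.succ (.add x y))) (.add y y)

section
variable {M : Struc} {m n : ℕ} {V : Fin m → M.Str} {v : Fin n → M.Num}

lemma holds_or (φ ψ : Fm m n) : (φ.or ψ).Holds M V v ↔ φ.Holds M V v ∨ ψ.Holds M V v := by
  simp only [Fm.or, Fm.Holds]; tauto
lemma holds_imp (φ ψ : Fm m n) : (φ.imp ψ).Holds M V v ↔ (φ.Holds M V v → ψ.Holds M V v) := by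
  simp only [Fm.imp, Fm.Holds]; tauto
lemma holds_iff (φ ψ : Fm m n) : (φ.iff ψ).Holds M V v ↔ (φ.Holds M V v ↔ ψ.Holds M V v) := by
  simp only [Fm.iff, Fm.imp, Fm.Holds]; tauto
lemma holds_xor (φ ψ : Fm m n) : (φ.xor ψ).Holds M V v ↔ Xor (φ.Holds M V v) (ψ.Holds M V v) := by
  simp only [Fm.xor, Fm.or, Fm.Holds, Xor]; tauto
lemma holds_lt (s t : Tm n m) : (Fm.lt s t).Holds M V v ↔ M.lt (s.eval M v V) (t.eval M v V) :=
  Iff.rfl
lemma holds_bex (t : Tm n m) (φ : Fm m (n + 1)) : (Fm.bex t φ).Holds M V v ↔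
    ∃ a, M.le a (t.eval M v V) ∧ φ.Holds M V (Fin.cons a v) := by
  simp only [Fm.bex, Fm.Holds]; push Not; rfl
lemma eval_succ (s : Tm n m) : s.succ.eval M v V = M.succ (s.eval M v V) := rfl
lemma eval_pair (s t : Tm n m) : (s.pair t).eval M v V = M.pair (s.eval M v V) (t.eval M v V) := rfl
end

/-- number variables `z, y`; string `Y` -/
def seqF : Fm 1 2 :=
  .or (.and (.lt (.var 1) (.len 0)) (.and (.mem (.pair (.var 0) (.var 1)) 0)
      (.ball (.var 1) (.imp (.not (.eq (.var 0) (.var 2))) (.not (.mem (.pair (.var 1) (.var 0)) 0))))))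
    (.and (.eq (.var 1) (.len 0))
      (.ball (.len 0) (.imp (.not (.eq (.var 0) (.len 0))) (.not (.mem (.pair (.var 1) (.var 0)) 0)))))

lemma seqF_iff (M : Struc) (z y : M.Num) (Y : M.Str) :
    seqF.Holds M ![Y] ![z, y] ↔ M.Seq z Y y := by
  simp only [seqF, holds_or, holds_imp, holds_lt, Fm.Holds, eval_pair, Tm.eval, Struc.Seq,
    Struc.lt, and_imp]
  rfl

/-- number variables `i, j`; strings `X, Y, W` -/
def stepF : Fm 3 2 :=
  .iff (.mem (.pair (.succ (.var 0)) (.var 1)) 2)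
    (.xor (.xor (.mem (.pair (.var 0) (.var 1)) 2)
        (.and (.mem (.var 0) 0) (.bex (.var 1)
          (.and (.eq (.add (.var 0) (.var 1)) (.var 2)) (.mem (.var 0) 1)))))
      (.bex (.var 1) (.and (.not (.eq (.var 0) (.var 2))) (.and (.mem (.pair (.var 1) (.var 0)) 2)
        (.and (.and (.mem (.var 1) 0) (.bex (.var 0)
            (.and (.eq (.add (.var 0) (.var 2)) (.var 1)) (.mem (.var 0) 1))))
          (.ball (.var 2) (.imp (.not (.eq (.var 0) (.var 3))) (.imp (.lt (.var 1) (.var 0))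
            (.or (.mem (.pair (.var 2) (.var 0)) 2) (.and (.mem (.var 2) 0) (.bex (.var 0)
              (.and (.eq (.add (.var 0) (.var 3)) (.var 1)) (.mem (.var 0) 1)))))))))))))

lemma stepF_iff (M : Struc) (i j : M.Num) (X Y W : M.Str) :
    stepF.Holds M ![X, Y, W] ![i, j] ↔ (M.mem (M.pair (M.succ i) j) W ↔
      Xor (Xor (M.mem (M.pair i j) W) (M.mem i X ∧ ∃ k, M.le k j ∧ M.add k i = j ∧ M.mem k Y))
        (M.Carry (fun j => M.mem (M.pair i j) W)
          (fun j => M.mem i X ∧ ∃ k, M.le k j ∧ M.add k i = j ∧ M.mem k Y) j)) := by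
  simp only [stepF, holds_or, holds_imp, holds_lt, holds_iff, holds_xor, holds_bex, Fm.Holds,
    eval_pair, eval_succ, Tm.eval, Struc.Carry, Struc.lt, and_imp, and_assoc]
  rfl

end Pool.Agent.H311Z.VTC
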