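import Pool.Agent.H311Z.VTC.Hull
import Pool.Agent.H311Z.VTC.Std
import Pool.Agent.H311Z.VTC.NotIP

/-! A model of `VTC⁰` with countable number sort and uncountable string sort. -/

namespace Pool.Agent.H311Z.VTC

open Filter

set_option linter.unusedVariables false

def code : (n : ℕ) → (Fin n → ℕ) → ℕ
  | 0, _ => 0
  | n + 1, v => Nat.pair (v 0) (code n fun i => v i.succ)

def dec : (n : ℕ) → ℕ → Fin n → ℕ
  | 0, _ => Fin.elim0
  | n + 1, q => Fin.cons q.unpair.1 (dec n q.unpair.2)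

lemma dec_code : ∀ (n : ℕ) (v : Fin n → ℕ), dec n (code n v) = v
  | 0, v => funext fun i => i.elim0
  | n + 1, v => by
    simp only [code, dec, Nat.unpair_pair, dec_code n]
    funext i
    cases i using Fin.cases <;> rfl

open Classical in
noncomputable def skv {m n : ℕ} (φ : Fm m (n + 1)) (b : ℕ) (v : Fin n → ℕ) (V : Fin m → ℕ) : ℕ :=
  if h : ∃ a : ℕ, a ≤ b ∧ ¬ φ.Holds std V (Fin.cons a v) then h.choose else 0

lemma skv_le {m n : ℕ} (φ : Fm m (n + 1)) (b : ℕ) (v : Fin n → ℕ) (V : Fin m → ℕ) :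
    skv φ b v V ≤ b := by
  unfold skv
  split_ifs with h
  · exact h.choose_spec.1
  · exact Nat.zero_le _

lemma skv_spec {m n : ℕ} (φ : Fm m (n + 1)) (b : ℕ) (v : Fin n → ℕ) (V : Fin m → ℕ)
    (h : φ.Holds std V (Fin.cons (skv φ b v V) v)) (a : ℕ) (ha : a ≤ b) :
    φ.Holds std V (Fin.cons a v) := by
  by_contra hn
  have h' : ∃ a : ℕ, a ≤ b ∧ ¬ φ.Holds std V (Fin.cons a v) := ⟨a, ha, hn⟩
  unfold skv at h
  rw [dif_pos h'] at h
  exact h'.choose_spec.2 h

noncomputable def cpv {m n : ℕ} (φ : Fm m (n + 1)) (b : ℕ) (v : Fin n → ℕ) (V : Fin m → ℕ) : ℕ :=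
  (exists_bits b fun z => φ.Holds std V (Fin.cons z v)).choose

lemma cpv_spec {m n : ℕ} (φ : Fm m (n + 1)) (b : ℕ) (v : Fin n → ℕ) (V : Fin m → ℕ) :
    (cpv φ b v V).size ≤ b ∧
      ∀ z, (cpv φ b v V).testBit z = true ↔ z < b ∧ φ.Holds std V (Fin.cons z v) :=
  (exists_bits b fun z => φ.Holds std V (Fin.cons z v)).choose_spec

abbrev Ix : Type := ℕ ⊕ (Bool × Σ m n : ℕ, Fm m (n + 1))

noncomputable def baseFn : Ix → ℕ → ℕ
  | .inl 0 => fun _ => 0
  | .inl 1 => fun _ => 1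
  | .inl 2 => fun q => q.unpair.1 + q.unpair.2
  | .inl 3 => fun q => q.unpair.1 * q.unpair.2
  | .inl 4 => Nat.size
  | .inl 5 => fun q => mulT q.unpair.1 q.unpair.2
  | .inl _ => fun q => numT q.unpair.1 q.unpair.2
  | .inr (false, ⟨m, n, φ⟩) => fun q =>
      skv φ q.unpair.1 (dec n q.unpair.2.unpair.1) (dec m q.unpair.2.unpair.2)
  | .inr (true, ⟨m, n, φ⟩) => fun q =>
      cpv φ q.unpair.1 (dec n q.unpair.2.unpair.1) (dec m q.unpair.2.unpair.2)

lemma small_const (c : ℕ) (hc : c ≤ 1) : Small ((fun _ => c : ℕ → ℕ) : G) :=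
  small_coe.2 ⟨0, Eventually.of_forall fun n => by simpa using hc⟩

lemma small_add {x y : G} (hx : Small x) (hy : Small y) :
    Small ((fun k => rep x k + rep y k : ℕ → ℕ) : G) := by
  obtain ⟨c, hc⟩ := hx
  obtain ⟨d, hd⟩ := hy
  refine small_coe.2 ⟨max c d + 1, ?_⟩
  filter_upwards [hc, hd] with n h1 h2
  have e1 : (n + 2) ^ c ≤ (n + 2) ^ (max c d) := Nat.pow_le_pow_right (by omega) (le_max_left _ _)
  have e2 : (n + 2) ^ d ≤ (n + 2) ^ (max c d) := Nat.pow_le_pow_right (by omega) (le_max_right _ _)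
  rw [pow_succ]
  nlinarith

lemma small_mul {x y : G} (hx : Small x) (hy : Small y) :
    Small ((fun k => rep x k * rep y k : ℕ → ℕ) : G) := by
  obtain ⟨c, hc⟩ := hx
  obtain ⟨d, hd⟩ := hy
  refine small_coe.2 ⟨c + d, ?_⟩
  filter_upwards [hc, hd] with n h1 h2
  rw [pow_add]
  exact Nat.mul_le_mul h1 h2

lemma small_size {x : G} (hx : Big x) : Small ((fun k => (rep x k).size : ℕ → ℕ) : G) := by
  obtain ⟨c, hc⟩ := hx
  exact small_coe.2 ⟨c, hc.mono fun n h => Nat.size_le.2 h⟩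

lemma small_of_le {x : G} (hx : Small x) {f : ℕ → ℕ} (h : ∀ᶠ k in U, f k ≤ rep x k) :
    Small (f : G) := by
  obtain ⟨c, hc⟩ := hx
  refine small_coe.2 ⟨c, ?_⟩
  filter_upwards [hc, h] with n h1 h2 using h2.trans h1

lemma big_of_size {x : G} (hx : Small x) {f : ℕ → ℕ} (h : ∀ᶠ k in U, (f k).size ≤ rep x k) :
    Big (f : G) := by
  obtain ⟨c, hc⟩ := hx
  refine big_coe.2 ⟨c, ?_⟩
  filter_upwards [hc, h] with n h1 h2 using Nat.size_le.1 (h2.trans h1)

lemma big_mul {x y : G} (hx : Big x) (hy : Big y) :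
    Big ((fun k => rep x k * rep y k : ℕ → ℕ) : G) := by
  refine big_of_size (small_add (small_size hx) (small_size hy)) ?_
  filter_upwards [rep_coe (fun k => rep ((fun k => (rep x k).size : ℕ → ℕ) : G) k +
    rep ((fun k => (rep y k).size : ℕ → ℕ) : G) k), rep_coe (fun k => (rep x k).size),
    rep_coe (fun k => (rep y k).size)] with k h1 h2 h3
  rw [h1, h2, h3, Nat.size_le, pow_add]
  exact Nat.mul_lt_mul'' (Nat.lt_size_self _) (Nat.lt_size_self _)

variable {M : Set G}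

lemma mem_rep {x : G} (h : x ∈ M) : ((rep x : ℕ → ℕ) : G) ∈ M := by rw [coe_rep]; exact h

lemma zero_mem (hM : Closed baseFn M) : ((fun _ => 0 : ℕ → ℕ) : G) ∈ M :=
  hM.coe_app (.base (.inl 0)) hM.hom (fun _ => rfl) (small_const 0 (by simp)).big

lemma code_mem (hM : Closed baseFn M) : ∀ (n : ℕ) (w : Fin n → G), (∀ i, w i ∈ M) →
    ((fun k => code n fun i => rep (w i) k : ℕ → ℕ) : G) ∈ M
  | 0, _, _ => zero_mem hM
  | n + 1, w, h =>
    hM.coe_pair (mem_rep (h 0)) (code_mem hM n (fun i => w i.succ) fun i => h i.succ)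

/-- the model -/
noncomputable def mdl (hM : Closed baseFn M) : Struc where
  Num := {x : G // x ∈ M ∧ Small x}
  Str := {x : G // x ∈ M}
  zero := ⟨((fun _ => 0 : ℕ → ℕ) : G), zero_mem hM, small_const 0 (by simp)⟩
  one := ⟨((fun _ => 1 : ℕ → ℕ) : G),
    hM.coe_app (.base (.inl 1)) hM.hom (fun _ => rfl) (small_const 1 (by simp)).big,
    small_const 1 (by simp)⟩
  add := fun x y => ⟨((fun k => rep x.1 k + rep y.1 k : ℕ → ℕ) : G),
    hM.coe_app (.base (.inl 2)) (hM.coe_pair (mem_rep x.2.1) (mem_rep y.2.1))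
      (fun _ => by simp [Code.fn, baseFn]) (small_add x.2.2 y.2.2).big, small_add x.2.2 y.2.2⟩
  mul := fun x y => ⟨((fun k => rep x.1 k * rep y.1 k : ℕ → ℕ) : G),
    hM.coe_app (.base (.inl 3)) (hM.coe_pair (mem_rep x.2.1) (mem_rep y.2.1))
      (fun _ => by simp [Code.fn, baseFn]) (small_mul x.2.2 y.2.2).big, small_mul x.2.2 y.2.2⟩
  le := fun x y => ∀ᶠ k in U, rep x.1 k ≤ rep y.1 k
  len := fun X => ⟨((fun k => (rep X.1 k).size : ℕ → ℕ) : G),
    hM.coe_app (.base (.inl 4)) (mem_rep X.2) (fun _ => rfl) (small_size (hM.big _ X.2)).big,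
    small_size (hM.big _ X.2)⟩
  mem := fun i X => ∀ᶠ k in U, (rep X.1 k).testBit (rep i.1 k) = true

variable (hM : Closed baseFn M)

noncomputable def rN (x : (mdl hM).Num) (k : ℕ) : ℕ := rep x.1 k
noncomputable def rS (x : (mdl hM).Str) (k : ℕ) : ℕ := rep x.1 k

lemma germ_eq_iff (x y : G) : x = y ↔ ∀ᶠ k in U, rep x k = rep y k := by
  constructor
  · rintro rfl; exact Eventually.of_forall fun _ => rfl
  · intro h
    rw [← coe_rep x, ← coe_rep y]
    exact Germ.coe_eq.2 h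

lemma eval_rep {n m : ℕ} (v : Fin n → (mdl hM).Num) (V : Fin m → (mdl hM).Str) (t : Tm n m) :
    ∀ᶠ k in U, rN hM (t.eval (mdl hM) v V) k =
      t.eval std (fun i => rN hM (v i) k) (fun j => rS hM (V j) k) := by
  induction t with
  | var i => exact Eventually.of_forall fun _ => rfl
  | zero => exact rep_coe (fun _ => 0)
  | one => exact rep_coe (fun _ => 1)
  | add s t i1 i2 =>
    filter_upwards [i1, i2, rep_coe (fun k => rN hM (s.eval (mdl hM) v V) k +
      rN hM (t.eval (mdl hM) v V) k)] with k h1 h2 h3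
    exact h3.trans (by rw [h1, h2]; rfl)
  | mul s t i1 i2 =>
    filter_upwards [i1, i2, rep_coe (fun k => rN hM (s.eval (mdl hM) v V) k *
      rN hM (t.eval (mdl hM) v V) k)] with k h1 h2 h3
    exact h3.trans (by rw [h1, h2]; rfl)
  | len j => exact rep_coe (fun k => (rS hM (V j) k).size)

lemma cons_rep {n : ℕ} (a : (mdl hM).Num) (v : Fin n → (mdl hM).Num) (k : ℕ) :
    (fun i => rN hM ((Fin.cons a v : Fin (n + 1) → (mdl hM).Num) i) k) =
      Fin.cons (rN hM a k) (fun i => rN hM (v i) k) := by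
  funext i
  cases i using Fin.cases <;> rfl

lemma env_mem {n m : ℕ} (b : (mdl hM).Num) (v : Fin n → (mdl hM).Num) (V : Fin m → (mdl hM).Str) :
    ((fun k => Nat.pair (rN hM b k) (Nat.pair (code n fun i => rN hM (v i) k)
      (code m fun j => rS hM (V j) k)) : ℕ → ℕ) : G) ∈ M :=
  hM.coe_pair (mem_rep b.2.1) (hM.coe_pair (code_mem hM n (fun i => (v i).1) fun i => (v i).2.1)
    (code_mem hM m (fun j => (V j).1) fun j => (V j).2))

theorem los {m : ℕ} (V : Fin m → (mdl hM).Str) {n : ℕ} (φ : Fm m n) (v : Fin n → (mdl hM).Num) :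
    φ.Holds (mdl hM) V v ↔
      ∀ᶠ k in U, φ.Holds std (fun j => rS hM (V j) k) (fun i => rN hM (v i) k) := by
  induction φ with
  | eq s t =>
    simp only [Fm.Holds]
    refine (Subtype.ext_iff.trans (germ_eq_iff _ _)).trans ?_
    apply eventually_congr
    filter_upwards [eval_rep hM v V s, eval_rep hM v V t] with k h1 h2
    rw [← h1, ← h2]; rfl
  | le s t =>
    simp only [Fm.Holds]
    apply eventually_congr
    filter_upwards [eval_rep hM v V s, eval_rep hM v V t] with k h1 h2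
    rw [← h1, ← h2]; rfl
  | mem t j =>
    simp only [Fm.Holds]
    apply eventually_congr
    filter_upwards [eval_rep hM v V t] with k h1
    rw [← h1]; rfl
  | seq i j =>
    simp only [Fm.Holds]
    exact Subtype.ext_iff.trans (germ_eq_iff _ _)
  | not φ ih =>
    simp only [Fm.Holds]
    rw [ih, Ultrafilter.eventually_not]
  | and φ ψ i1 i2 =>
    simp only [Fm.Holds]
    rw [i1, i2, eventually_and]
  | @ball n t φ ih =>
    simp only [Fm.Holds]
    constructor
    · intro h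
      let b := t.eval (mdl hM) v V
      let a : ℕ → ℕ := fun k => skv φ (rN hM b k) (fun i => rN hM (v i) k) (fun j => rS hM (V j) k)
      have hs : Small (a : G) := small_of_le b.2.2 (Eventually.of_forall fun k => skv_le _ _ _ _)
      have haM : (a : G) ∈ M := hM.coe_app (.base (.inr (false, ⟨m, n, φ⟩))) (env_mem hM b v V)
        (fun k => by simp [a, Code.fn, baseFn, dec_code]) hs.big
      have h1 := (ih _).1 (h ⟨a, haM, hs⟩ ((rep_coe a).mono fun k hk => by
        change rep (a : G) k ≤ rN hM b k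
        rw [hk]; exact skv_le _ _ _ _))
      filter_upwards [h1, rep_coe a, eval_rep hM v V t] with k e1 e2 e3
      rw [cons_rep] at e1
      intro (c : ℕ) hc
      have e4 : rN hM ⟨a, haM, hs⟩ k = a k := e2
      rw [e4] at e1
      refine skv_spec φ _ _ _ e1 c ?_
      rw [← e3] at hc
      exact hc
    · intro h a ha
      rw [ih]
      filter_upwards [h, ha, eval_rep hM v V t] with k e1 e2 e3
      rw [cons_rep]
      apply e1
      rw [← e3]
      exact e2

lemma transfer {m n : ℕ} (φ : Fm m n) (h : ∀ V v, φ.Holds std V v) (V : Fin m → (mdl hM).Str)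
    (v : Fin n → (mdl hM).Num) : φ.Holds (mdl hM) V v :=
  (los hM V φ v).2 (Eventually.of_forall fun _ => h _ _)

lemma std_L2 (X y : ℕ) (h : y + 1 = X.size) : X.testBit y = true := by
  have h1 : 2 ^ y ≤ X := Nat.lt_size.1 (by omega)
  have h2 : X < 2 ^ (y + 1) := Nat.size_le.1 (by omega)
  exact Nat.testBit_of_two_pow_le_and_two_pow_add_one_gt h1 h2

lemma std_SE (X Y : ℕ) (h : X.size = Y.size)
    (h' : ∀ i, i ≤ X.size → ¬ i = X.size → (X.testBit i = true ↔ Y.testBit i = true)) : X = Y := by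
  apply Nat.eq_of_testBit_eq
  intro i
  by_cases hi : i < X.size
  · exact Bool.eq_iff_iff.2 (h' i hi.le hi.ne)
  · have e1 : X.testBit i = false := by
      by_contra hc
      exact hi (lt_size_of_testBit (by simpa using hc))
    have e2 : Y.testBit i = false := by
      by_contra hc
      exact hi (h ▸ lt_size_of_testBit (by simpa using hc))
    rw [e1, e2]

theorem mdl_basic : (mdl hM).Basic where
  B1 x := transfer hM (m := 0) (n := 1) (.not (.eq (.succ (.var 0)) .zero))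
    (fun _ v => Nat.succ_ne_zero (v 0)) ![] ![x]
  B2 x y := (holds_imp _ _).1 (transfer hM (m := 0) (n := 2)
    (.imp (.eq (.succ (.var 0)) (.succ (.var 1))) (.eq (.var 0) (.var 1)))
    (fun _ v => (holds_imp _ _).2 fun h => Nat.succ.inj h) ![] ![x, y])
  B3 x := transfer hM (m := 0) (n := 1) (.eq (.add (.var 0) .zero) (.var 0)) (fun _ _ => rfl) ![] ![x]
  B4 x y := transfer hM (m := 0) (n := 2) (.eq (.add (.var 0) (.succ (.var 1))) (.succ (.add (.var 0) (.var 1))))
    (fun _ _ => rfl) ![] ![x, y]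
  B5 x := transfer hM (m := 0) (n := 1) (.eq (.mul (.var 0) .zero) .zero) (fun _ _ => rfl) ![] ![x]
  B6 x y := transfer hM (m := 0) (n := 2)
    (.eq (.mul (.var 0) (.succ (.var 1))) (.add (.mul (.var 0) (.var 1)) (.var 0)))
    (fun _ _ => rfl) ![] ![x, y]
  B7 x y h1 h2 := (holds_imp _ _).1 ((holds_imp _ _).1 (transfer hM (m := 0) (n := 2)
    (.imp (.le (.var 0) (.var 1)) (.imp (.le (.var 1) (.var 0)) (.eq (.var 0) (.var 1))))
    (fun _ v => (holds_imp _ _).2 fun h => (holds_imp _ _).2 fun h' => Nat.le_antisymm h h')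
    ![] ![x, y]) h1) h2
  B8 x y := transfer hM (m := 0) (n := 2) (.le (.var 0) (.add (.var 0) (.var 1)))
    (fun _ v => Nat.le_add_right (v 0) (v 1)) ![] ![x, y]
  B9 x := transfer hM (m := 0) (n := 1) (.le .zero (.var 0)) (fun _ v => Nat.zero_le (v 0)) ![] ![x]
  B10 x y := (holds_or _ _).1 (transfer hM (m := 0) (n := 2) (.or (.le (.var 0) (.var 1)) (.le (.var 1) (.var 0)))
    (fun _ v => (holds_or _ _).2 (Nat.le_total (v 0) (v 1))) ![] ![x, y])
  B11 x y := (holds_iff _ _).1 (transfer hM (m := 0) (n := 2)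
    (.iff (.le (.var 0) (.var 1)) (.lt (.var 0) (.succ (.var 1))))
    (fun _ v => (holds_iff _ _).2 (Nat.lt_succ_iff.symm.trans (std_lt (v 0) (Nat.succ (v 1))).symm))
    ![] ![x, y])
  B12 x h := (holds_bex _ _).1 ((holds_imp _ _).1 (transfer hM (m := 0) (n := 1)
    (.imp (.not (.eq (.var 0) .zero)) (.bex (.var 0) (.eq (.succ (.var 0)) (.var 1))))
    (fun _ v => (holds_imp _ _).2 fun h => (holds_bex _ _).2
      ⟨Nat.pred (v 0), Nat.pred_le (v 0), Nat.succ_pred h⟩) ![] ![x]) h)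
  L1 X y := (holds_imp _ _).1 (transfer hM (m := 1) (n := 1) (.imp (.mem (.var 0) 0) (.lt (.var 0) (.len 0)))
    (fun V v => (holds_imp _ _).2 fun h => (std_lt _ _).2 (lt_size_of_testBit h)) ![X] ![y])
  L2 X y := (holds_imp _ _).1 (transfer hM (m := 1) (n := 1) (.imp (.eq (.succ (.var 0)) (.len 0)) (.mem (.var 0) 0))
    (fun V v => (holds_imp _ _).2 fun h => std_L2 _ _ h) ![X] ![y])
  SE X Y h1 h2 := (holds_imp _ _).1 ((holds_imp _ _).1 (transfer hM (m := 2) (n := 0)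
    (.imp (.eq (.len 0) (.len 1)) (.imp (.ball (.len 0) (.imp (.not (.eq (.var 0) (.len 0)))
      (.iff (.mem (.var 0) 0) (.mem (.var 0) 1)))) (.seq 0 1)))
    (fun V v => (holds_imp _ _).2 fun h => (holds_imp _ _).2 fun h' => std_SE _ _ h
      fun i hi hi' => (holds_iff _ _).1 ((holds_imp _ _).1 (h' i hi) hi')) ![X, Y] ![]) h1)
    fun i hi => (holds_imp _ _).2 fun hi' => (holds_iff _ _).2 (h2 i ⟨hi, hi'⟩)

lemma lt_rep {x y : (mdl hM).Num} (h : (mdl hM).lt x y) : ∀ᶠ k in U, rN hM x k < rN hM y k :=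
  ((los hM (m := 0) (n := 2) ![] (.lt (.var 0) (.var 1)) ![x, y]).1 h).mono fun _ hk => (std_lt _ _).1 hk

theorem mdl_comp : (mdl hM).Comp := by
  intro m n φ v V y
  let a : ℕ → ℕ := fun k => cpv φ (rN hM y k) (fun i => rN hM (v i) k) (fun j => rS hM (V j) k)
  have hb : Big (a : G) := big_of_size y.2.2 (Eventually.of_forall fun k => (cpv_spec _ _ _ _).1)
  have haM : (a : G) ∈ M := hM.coe_app (.base (.inr (true, ⟨m, n, φ⟩))) (env_mem hM y v V)
    (fun k => by simp [a, Code.fn, baseFn, dec_code]) hb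
  refine ⟨⟨a, haM⟩, ?_, fun z hz => ?_⟩
  · change ∀ᶠ k in U, rep ((fun k => (rep (a : G) k).size : ℕ → ℕ) : G) k ≤ rN hM y k
    filter_upwards [rep_coe a, rep_coe (fun k => (rep (a : G) k).size)] with k h1 h2
    rw [h2, h1]
    exact (cpv_spec _ _ _ _).1
  · rw [los]
    apply eventually_congr
    filter_upwards [rep_coe a, lt_rep hM hz] with k h1 h2
    rw [cons_rep]
    change (rep (a : G) k).testBit (rN hM z k) = true ↔ _
    rw [h1, (cpv_spec _ _ _ _).2]
    exact ⟨fun h => h.2, fun h => ⟨h2, h⟩⟩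

lemma seq_rep (z y : (mdl hM).Num) (Y : (mdl hM).Str) :
    (mdl hM).Seq z Y y ↔ ∀ᶠ k in U, std.Seq (rN hM z k) (rS hM Y k) (rN hM y k) := by
  rw [← seqF_iff, los]
  apply eventually_congr
  refine Eventually.of_forall fun k => ?_
  rw [← seqF_iff]
  congr! with j i
  · fin_cases j; rfl
  · fin_cases i <;> rfl

lemma succ_rep (z : (mdl hM).Num) : ∀ᶠ k in U, rN hM ((mdl hM).succ z) k = rN hM z k + 1 :=
  eval_rep hM (m := 0) ![z] ![] (.succ (.var 0))

lemma pair_rep (x y : (mdl hM).Num) :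
    ∀ᶠ k in U, rN hM ((mdl hM).pair x y) k = np (rN hM x k) (rN hM y k) :=
  eval_rep hM (m := 0) ![x, y] ![] (.pair (.var 0) (.var 1))

lemma len_rep (X : (mdl hM).Str) : ∀ᶠ k in U, rN hM ((mdl hM).len X) k = (rS hM X k).size :=
  rep_coe (fun k => (rS hM X k).size)

theorem mdl_numones : (mdl hM).Numones := by
  intro x X
  let a : ℕ → ℕ := fun k => numT (rN hM x k) (rS hM X k)
  have hbd : ∀ᶠ k in U, rN hM ((mdl hM).add (mdl hM).one ((mdl hM).pair x x)) k =
      1 + np (rN hM x k) (rN hM x k) :=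
    eval_rep hM (m := 0) ![x] ![] (.add .one (.pair (.var 0) (.var 0)))
  have hb : Big (a : G) := big_of_size ((mdl hM).add (mdl hM).one ((mdl hM).pair x x)).2.2
    (hbd.mono fun k hk => (numT_size _ _).trans hk.ge)
  have haM : (a : G) ∈ M := hM.coe_app (.base (.inl 6))
    (hM.coe_pair (mem_rep x.2.1) (mem_rep X.2))
    (fun k => by simp [a, Code.fn, baseFn, rN, rS]) hb
  have hr : ∀ᶠ k in U, rS hM ⟨a, haM⟩ k = numT (rN hM x k) (rS hM X k) := rep_coe a
  refine ⟨⟨a, haM⟩, ?_, ?_, fun z hz y hy => ⟨fun h => ?_, fun h => ?_⟩⟩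
  · change ∀ᶠ k in U, rN hM ((mdl hM).len ⟨a, haM⟩) k ≤
      rN hM ((mdl hM).add (mdl hM).one ((mdl hM).pair x x)) k
    filter_upwards [hr, hbd, len_rep hM ⟨a, haM⟩] with k h1 h2 h3
    rw [h3, h2, h1]
    exact numT_size _ _
  · rw [seq_rep]
    have h0 : ∀ᶠ k in U, rN hM (mdl hM).zero k = 0 := rep_coe (fun _ => 0)
    filter_upwards [hr, h0] with k h1 h2
    rw [h1, h2, numT_seq _ _ _ (Nat.zero_le _)]
    simp [cnt]
  · rw [seq_rep] at hy ⊢
    filter_upwards [hr, hy, lt_rep hM hz, succ_rep hM z, succ_rep hM y, h] with k h1 h2 h3 h4 h5 h6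
    rw [h1, numT_seq _ _ _ h3.le] at h2
    rw [h1, h4, h5, numT_seq _ _ _ h3, cnt_succ, h2,
      if_pos (show (rS hM X k).testBit (rN hM z k) = true from h6)]
  · rw [seq_rep] at hy ⊢
    have h' := Ultrafilter.eventually_not.2 h
    filter_upwards [hr, hy, lt_rep hM hz, succ_rep hM z, h'] with k h1 h2 h3 h4 h6
    rw [h1, numT_seq _ _ _ h3.le] at h2
    rw [h1, h4, numT_seq _ _ _ h3, cnt_succ, h2,
      if_neg (show ¬ (rS hM X k).testBit (rN hM z k) = true from h6)]
    rfl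

theorem mdl_mult (X Y : (mdl hM).Str) : ∃ Z, (mdl hM).NMul X Y Z := by
  let a : ℕ → ℕ := fun k => mulT (rS hM X k) (rS hM Y k)
  let t : Tm 0 2 := .succ (.pair (.len 0) (.add (.len 0) (.len 1)))
  have hbd : ∀ᶠ k in U, rN hM (t.eval (mdl hM) ![] ![X, Y]) k =
      np (rS hM X k).size ((rS hM X k).size + (rS hM Y k).size) + 1 := eval_rep hM ![] ![X, Y] t
  have hb : Big (a : G) := big_of_size (t.eval (mdl hM) ![] ![X, Y]).2.2
    (hbd.mono fun k hk => (mulT_size _ _).trans hk.ge)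
  have haM : (a : G) ∈ M := hM.coe_app (.base (.inl 5))
    (hM.coe_pair (mem_rep X.2) (mem_rep Y.2))
    (fun k => by simp [a, Code.fn, baseFn, rS]) hb
  have hr : ∀ᶠ k in U, rS hM ⟨a, haM⟩ k = mulT (rS hM X k) (rS hM Y k) := rep_coe a
  let p : ℕ → ℕ := fun k => rS hM X k * rS hM Y k
  have hpM : (p : G) ∈ M := hM.coe_app (.base (.inl 3))
    (hM.coe_pair (mem_rep X.2) (mem_rep Y.2))
    (fun k => by simp [p, Code.fn, baseFn, rS]) (big_mul (hM.big _ X.2) (hM.big _ Y.2))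
  have hp : ∀ᶠ k in U, rS hM ⟨p, hpM⟩ k = rS hM X k * rS hM Y k := rep_coe p
  refine ⟨⟨p, hpM⟩, ⟨a, haM⟩, fun j => ?_, fun i hi j => ?_, fun j => ?_⟩
  · apply Ultrafilter.eventually_not.1
    have h0 : ∀ᶠ k in U, rN hM (mdl hM).zero k = 0 := rep_coe (fun _ => 0)
    filter_upwards [hr, h0, pair_rep hM (mdl hM).zero j] with k h1 h2 h3
    change ¬ (rS hM ⟨a, haM⟩ k).testBit (rN hM ((mdl hM).pair (mdl hM).zero j) k) = true
    rw [h1, h3, h2, mulT_bit]
    simp [Nat.mod_one]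
  · apply (stepF_iff (mdl hM) i j X Y ⟨a, haM⟩).1
    rw [los]
    filter_upwards [hr, lt_rep hM hi, len_rep hM X] with k h1 h2 h3
    have := (stepF_iff std (rN hM i k) (rN hM j k) (rS hM X k) (rS hM Y k)
      (rS hM ⟨a, haM⟩ k)).2 (by
        rw [h1]
        exact mulT_step (rS hM X k) (rS hM Y k) (rN hM i k) (h3 ▸ h2) (rN hM j k))
    convert this using 1
    · funext j; fin_cases j <;> rfl
    · funext i; fin_cases i <;> rfl
  · apply eventually_congr
    filter_upwards [hr, hp, pair_rep hM ((mdl hM).len X) j, len_rep hM X] with k h1 h2 h3 h4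
    change (rS hM ⟨p, hpM⟩ k).testBit (rN hM j k) = true ↔
      (rS hM ⟨a, haM⟩ k).testBit (rN hM ((mdl hM).pair ((mdl hM).len X) j) k) = true
    rw [h1, h2, h3, h4, mulT_bit, Nat.mod_eq_of_lt (Nat.lt_size_self _)]
    simp

theorem exists_model : ∃ M : Struc, M.IsVTC0 ∧ Countable M.Num ∧ ¬ Countable M.Str := by
  obtain ⟨M, hM, h1, h2⟩ := exists_closed baseFn
  exact ⟨mdl hM, ⟨mdl_basic hM, mdl_comp hM, mdl_mult hM, mdl_numones hM⟩, h2.to_subtype,
    fun h => h1 (Set.countable_coe_iff.1 h)⟩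

end Pool.Agent.H311Z.VTC
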